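import Mathlib
import Pool.Agent.N535.Main
import Pool.Agent.N535.Far2
import Pool.Agent.N564.RF3.Chart
import Pool.Agent.N564.RF3.Flow
import Pool.Agent.N564.RF3.Val
import Pool.Agent.N99.RF3.Far
import Pool.Agent.N99.RF3.Gauge

/-!
# Ricci flow on the 3-sphere with nearly maximal existence time: the `C⁰` version is false

There is `ε > 0` such that for every `δ > 0` there is a smooth metric `g` on `S³` with scalar curvature
`≥ 6` whose (maximal) Ricci flow exists for a time `> 1/4 - δ`, and which stays at `C⁰` distance at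
least `ε` from the round metric of curvature `1`, whatever diffeomorphism is applied.

The metrics are `(1 - u + u² + small)⁻² ĝ`, where `u` is a bump of fixed small height and of width
`r → 0` with `-Δu ≥ -u`; the Ricci flow is constructed in a conformal gauge, as a small solution of a
quasilinear parabolic equation in a weighted Wiener algebra of Chebyshev expansions, the two unstable
modes being solved backwards in time.
-/

set_option autoImplicit false
open scoped ContDiff Manifold

namespace Pool.Agent.Results.MP_ae1fc5_gt.C0StabilityFails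

open Pool.Agent.N535 (Met MaximalFlow ScalAtLeastSix FarFromRound)

theorem result : ∃ ε : ℝ, 0 < ε ∧ ∀ δ : ℝ, 0 < δ → ∃ (T : EReal) (g : ℝ → Met),
    MaximalFlow T g ∧ ((1 / 4 - δ : ℝ) : EReal) < T ∧ ScalAtLeastSix (g 0) ∧
      FarFromRound ε (g 0) := by
  obtain ⟨ε, hε, h⟩ := Pool.Agent.N535.main_cond Pool.Agent.N564.RF3.stMetric
    Pool.Agent.N564.RF3.stScal Pool.Agent.N564.RF3.stRicci Pool.Agent.N564.RF3.stVal
    Pool.Agent.N99.RF3.stGauge Pool.Agent.N99.RF3.stFar
  refine ⟨ε, hε, fun δ hδ => ?_⟩
  obtain ⟨T, g, h1, h2, h3, h4⟩ := h δ hδ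
  exact ⟨T, g, h1, h2, fun e y he hy => h3 e he y hy, Pool.Agent.N535.far_of ε (g 0) h4⟩

end Pool.Agent.Results.MP_ae1fc5_gt.C0StabilityFails
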